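import Pool.Agent.W289.CG.Stm

set_option autoImplicit false

namespace Pool.Agent.W405.CG

open Polynomial NumberField nonZeroDivisors WithZero Pool.Agent.W289.CG

section

variable {K : Type} [Field K] (w : Valuation K (WithZero (Multiplicative ℤ)))

lemma one_of_mul {x y : K} (hx : w x ≤ 1) (hy : w y ≤ 1) (h : w x * w y = 1) : w x = 1 := by
  by_contra hne
  have h1 : w x < 1 := lt_of_le_of_ne hx hne
  have h2 : w x * w y < 1 := mul_lt_one_of_lt_of_le h1 hy
  rw [h] at h2
  exact lt_irrefl _ h2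

variable {w}

lemma aeval_le (hint : ∀ a : ℤ, w (a : K) ≤ 1) {θ : K} (hθ : w θ ≤ 1) (G : ℤ[X]) :
    w (aeval θ G) ≤ 1 := by
  induction G using Polynomial.induction_on with
  | C a => simpa using hint a
  | add p q hp hq =>
    rw [map_add]
    exact w.map_add_le hp hq
  | monomial n a _ =>
    rw [map_mul, map_pow, aeval_X, map_mul, map_pow]
    refine mul_le_one' ?_ ?_
    · simpa using hint a
    · exact pow_le_one' hθ _

/-- coprime integers -/
lemma coprime_val (hint : ∀ a : ℤ, w (a : K) ≤ 1) {r b : ℤ} (h : IsCoprime r b)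
    (hr : w (r : K) < 1) (hb : w (b : K) < 1) : False := by
  obtain ⟨u, v, huv⟩ := h
  have h1 : w (1 : K) < 1 := by
    have e : (1 : K) = (u : K) * r + (v : K) * b := by
      rw [← Int.cast_mul, ← Int.cast_mul, ← Int.cast_add, huv, Int.cast_one]
    rw [e]
    refine w.map_add_lt ?_ ?_
    · rw [map_mul, mul_comm]
      exact mul_lt_one_of_lt_of_le hr (hint u)
    · rw [map_mul, mul_comm]
      exact mul_lt_one_of_lt_of_le hb (hint v)
  rw [map_one] at h1
  exact lt_irrefl _ h1

/-- the main lemma -/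
lemma key (hint : ∀ a : ℤ, w (a : K) ≤ 1) {θ : K} (hθ : w θ ≤ 1) {m : ℕ} (F : ℤ[X]) (p r L : ℤ)
    (hF : F.eval p = 0) (hL : w (L : K) = 1) (h : (L : K) * aeval θ F = -(r : K) ^ m)
    (hcop : IsCoprime r (F.derivative.eval p)) (hr0 : (r : K) ≠ 0) :
    ∃ z : ℤ, w (θ - (p : K)) = exp ((m : ℤ) * z) := by
  obtain ⟨G, hG⟩ := dvd_iff_isRoot.mpr hF
  obtain ⟨H, hH⟩ := dvd_iff_isRoot.mpr (show (G - C (G.eval p)).IsRoot p by simp [IsRoot.def])
  have hd : F.derivative.eval p = G.eval p := by
    rw [hG, derivative_mul]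
    simp
  rw [hd] at hcop
  have e1 : aeval θ F = (θ - (p : K)) * aeval θ G := by
    rw [hG, map_mul, map_sub, aeval_X, aeval_C]
    simp
  have e2 : aeval θ G - ((G.eval p : ℤ) : K) = (θ - (p : K)) * aeval θ H := by
    have := congrArg (aeval θ) hH
    rw [map_mul, map_sub, map_sub, aeval_X, aeval_C, aeval_C] at this
    simpa using this
  have hp1 : w (θ - (p : K)) ≤ 1 := w.map_sub_le hθ (hint p)
  have hG1 : w (aeval θ G) ≤ 1 := aeval_le hint hθ G
  have hH1 : w (aeval θ H) ≤ 1 := aeval_le hint hθ H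
  have hmul : w (θ - (p : K)) * w (aeval θ G) = w (r : K) ^ m := by
    have := congrArg w h
    rw [map_mul, hL, one_mul, e1, map_mul, Valuation.map_neg, map_pow] at this
    exact this
  have hr1 : w (r : K) ≤ 1 := hint r
  by_cases h1 : w (θ - (p : K)) = 1
  · exact ⟨0, by rw [h1, mul_zero, exp_zero]⟩
  have hlt : w (θ - (p : K)) < 1 := lt_of_le_of_ne hp1 h1
  have hrlt : w (r : K) < 1 := by
    refine lt_of_le_of_ne hr1 fun h2 => h1 ?_
    rw [h2, one_pow] at hmul
    exact one_of_mul w hp1 hG1 hmul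
  have hGe : w (aeval θ G) = 1 := by
    by_contra h3
    have hGlt : w (aeval θ G) < 1 := lt_of_le_of_ne hG1 h3
    have h4 : w ((G.eval p : ℤ) : K) < 1 := by
      have e3 : ((G.eval p : ℤ) : K) = aeval θ G - (θ - (p : K)) * aeval θ H := by
        rw [← e2]; ring
      rw [e3]
      refine w.map_sub_lt hGlt ?_
      rw [map_mul]
      exact mul_lt_one_of_lt_of_le hlt hH1
    exact coprime_val hint hcop hrlt h4
  rw [hGe, mul_one] at hmul
  have hr0' : w (r : K) ≠ 0 := (w.ne_zero_iff).mpr hr0
  refine ⟨log (w (r : K)), ?_⟩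
  rw [hmul]
  conv_lhs => rw [← exp_log hr0']
  rw [← exp_nsmul, nsmul_eq_mul]

end

lemma aeval_pA {K : Type} [Field K] {n : ℕ} (a : Fin n → ℤ) (θ : K) :
    aeval θ (pA a) = ∏ i, (θ - (a i : K)) := by
  unfold pA
  rw [map_prod]
  refine Finset.prod_congr rfl fun i _ => ?_
  rw [map_sub, aeval_X, aeval_C]
  simp

theorem loc : TaskLoc := by
  intro n k D m s t L K _ _ θ hn hm hL0 hs0 ht0 hF hst hsb htb p p' v
  set w := v.valuation K with hw
  have hint : ∀ a : ℤ, w (a : K) ≤ 1 := by
    intro a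
    have := v.valuation_le_one (K := K) (a : 𝓞 K)
    simpa using this
  -- the two equations
  have h1 : (L : K) * aeval θ (pA D.a) = -(s : K) ^ m := by
    rw [aeval_pA]
    linear_combination hF.hθ
  have h2 : (L : K) * aeval θ (pA D.a - C D.c) = -(t : K) ^ m := by
    have h3 : ((L * D.c : ℤ) : K) = ((t ^ m - s ^ m : ℤ) : K) := by rw [hF.hL]
    push_cast at h3
    rw [map_sub, aeval_C, mul_sub, h1]
    simp only [eq_intCast]
    linear_combination -h3
  rcases le_or_gt (w θ) 1 with hθ | hθ
  · -- integral case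
    have hLw : w (L : K) = 1 := by
      by_contra hne
      have hLlt : w (L : K) < 1 := lt_of_le_of_ne (hint L) hne
      have hslt : w (s : K) < 1 := by
        refine lt_of_le_of_ne (hint s) fun h3 => ?_
        have h4 := congrArg w h1
        rw [map_mul, Valuation.map_neg, map_pow, h3, one_pow] at h4
        exact hne (one_of_mul w (hint L) (aeval_le hint hθ _) h4)
      have htlt : w (t : K) < 1 := by
        refine lt_of_le_of_ne (hint t) fun h3 => ?_
        have h4 := congrArg w h2
        rw [map_mul, Valuation.map_neg, map_pow, h3, one_pow] at h4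
        exact hne (one_of_mul w (hint L) (aeval_le hint hθ _) h4)
      exact coprime_val hint hst hslt htlt
    have hs0' : (s : K) ≠ 0 := by exact_mod_cast hs0
    have ht0' : (t : K) ≠ 0 := by exact_mod_cast ht0
    have hbad : ∀ x, (derivative (pA D.a)).eval (D.pt x) ∣ D.bad := fun x =>
      Finset.dvd_prod_of_mem _ (Finset.mem_univ x)
    have hpt : ∀ x, ∃ z : ℤ, w (θ - (D.pt x : K)) = exp ((m : ℤ) * z) := by
      intro x
      rcases x with i | j
      · refine key hint hθ (pA D.a) (D.a i) s L ?_ hLw h1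
          (IsCoprime.of_isCoprime_of_dvd_right hsb (hbad (Sum.inl i))) hs0'
        unfold pA
        rw [eval_prod]
        exact Finset.prod_eq_zero (Finset.mem_univ i) (by simp)
      · refine key hint hθ (pA D.a - C D.c) (D.b j) t L ?_ hLw h2 ?_ ht0'
        · rw [eval_sub, D.hab, eval_C, sub_self]
        · have e : derivative (pA D.a - C D.c) = derivative (pA D.a) := by
            rw [derivative_sub, derivative_C, sub_zero]
          rw [e]
          exact IsCoprime.of_isCoprime_of_dvd_right htb (hbad (Sum.inr j))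
    obtain ⟨z, hz⟩ := hpt p
    obtain ⟨z', hz'⟩ := hpt p'
    refine ⟨z - z', ?_⟩
    rw [map_div₀, hz, hz', mul_sub, exp_sub]
  · -- the other case
    have hpt : ∀ x, w (θ - (D.pt x : K)) = w θ := fun x =>
      w.map_sub_eq_of_lt_left ((hint _).trans_lt hθ)
    refine ⟨0, ?_⟩
    have hne : w θ ≠ 0 := (zero_lt_one.trans hθ).ne'
    rw [map_div₀, hpt, hpt, div_self hne, mul_zero, exp_zero]

end Pool.Agent.W405.CG
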